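import Pool.Agent.Y254.HK.Stm

/-! # Project HK: `t` from `t'`, `y` and the meeting heights; `s1` from the heights -/

set_option autoImplicit false
set_option maxHeartbeats 1000000

open Finset
open scoped Classical

namespace Pool.Agent.Y290.HK
open Pool.Agent.W904.AK Pool.Agent.W46.HD Pool.Agent.W46.HM Pool.Agent.Y244.HM
  Pool.Agent.W597.HD Pool.Agent.Y254HK

/-- `n / |i - j|` -/
noncomputable def rr (n i j : ℕ) : ℝ := (n : ℝ) / max 1 |(i : ℝ) - (j : ℝ)|

lemma abs_lt_n {n i j : ℕ} (hi : i < n) (hj : j < n) : |(i : ℝ) - j| ≤ n := by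
  have hi' : (i : ℝ) < n := by exact_mod_cast hi
  have hj' : (j : ℝ) < n := by exact_mod_cast hj
  have hi0 : (0 : ℝ) ≤ i := Nat.cast_nonneg _
  have hj0 : (0 : ℝ) ≤ j := Nat.cast_nonneg _
  rw [abs_le]
  constructor <;> linarith

lemma rr_ge {n i j : ℕ} (hi : i < n) (hj : j < n) : 1 ≤ rr n i j := by
  unfold rr
  have hn : (1 : ℝ) ≤ n := by exact_mod_cast (by omega : 1 ≤ n)
  rw [le_div_iff₀ (lt_of_lt_of_le one_pos (le_max_left _ _)), one_mul]
  exact max_le hn (abs_lt_n hi hj)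

lemma rr_le (n i j : ℕ) : rr n i j ≤ n := by
  unfold rr
  exact div_le_self (Nat.cast_nonneg n) (le_max_left _ _)

lemma rr_self (n i : ℕ) : rr n i i = n := by
  unfold rr
  rw [sub_self, abs_zero, max_eq_left zero_le_one, div_one]

lemma psi_eq (n i j : ℕ) : psi n i j = Real.log (rr n i j) := rfl

lemma rr_ne {n i j : ℕ} (h : i ≠ j) : 1 ≤ |(i : ℝ) - j| ∧ rr n i j = n / |(i : ℝ) - j| := by
  have hd : (1 : ℝ) ≤ |(i : ℝ) - j| := by
    have h1 : (1 : ℤ) ≤ |(i : ℤ) - j| := by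
      apply Int.one_le_abs
      intro h'
      apply h
      have : (i : ℤ) = j := by linarith
      exact_mod_cast this
    exact_mod_cast h1
  refine ⟨hd, ?_⟩
  unfold rr
  rw [max_eq_right hd]

lemma psi_symm (n i j : ℕ) : psi n i j = psi n j i := by
  unfold psi
  rw [abs_sub_comm]

lemma rr_symm (n i j : ℕ) : rr n i j = rr n j i := by
  unfold rr
  rw [abs_sub_comm]

/-- a product of numbers at least one -/
lemma prod_ge {a b c : ℝ} (ha : 1 ≤ a) (hb : 1 ≤ b) (hc : 1 ≤ c) :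
    a * b ≤ (a * b * c) ^ 2 ∧ a ≤ (a * b * c) ^ 2 ∧ b ≤ (a * b * c) ^ 2 ∧ c ≤ (a * b * c) ^ 2 ∧
      1 ≤ (a * b * c) ^ 2 := by
  have hab : 1 ≤ a * b := one_le_mul_of_one_le_of_one_le ha hb
  have habc : 1 ≤ a * b * c := one_le_mul_of_one_le_of_one_le hab hc
  have h1 : a * b * c ≤ (a * b * c) ^ 2 := by
    rw [sq]
    exact le_mul_of_one_le_left (by linarith) habc
  have h2 : a * b ≤ a * b * c := le_mul_of_one_le_right (by linarith) hc
  have h3 : a ≤ a * b := le_mul_of_one_le_right (by linarith) hb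
  have h4 : b ≤ a * b := le_mul_of_one_le_left (by linarith) ha
  have h5 : c ≤ a * b * c := le_mul_of_one_le_left (by linarith) hab
  exact ⟨by linarith, by linarith, by linarith, by linarith, by linarith⟩

/-! ### F6 -/

noncomputable def R6 (n s0 s1 t' t : ℕ) : ℝ := (rr n t' s0 * rr n s1 s0 * rr n t s0) ^ 2

lemma f6_ineq {n s0 s1 t' x y : ℕ} (h0 : s0 < n) (h1 : s1 < n) (h' : t' < n) (hx : x < n)
    (hy : y < n) (h : yy s0 s1 x t' = yy s0 s1 y t') :
    |(x : ℝ) - y| ≤ R6 n s0 s1 t' x + R6 n s0 s1 t' y := by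
  obtain ⟨px, pu, pw, pxx, px1⟩ := prod_ge (rr_ge h' h0) (rr_ge h1 h0) (rr_ge hx h0)
  obtain ⟨py, -, -, pyy, py1⟩ := prod_ge (rr_ge h' h0) (rr_ge h1 h0) (rr_ge hy h0)
  have hxy := abs_lt_n hx hy
  have hRx : R6 n s0 s1 t' x = (rr n t' s0 * rr n s1 s0 * rr n x s0) ^ 2 := rfl
  have hRy : R6 n s0 s1 t' y = (rr n t' s0 * rr n s1 s0 * rr n y s0) ^ 2 := rfl
  rw [← hRx] at px pu pw pxx px1
  rw [← hRy] at py pyy py1
  by_cases c1 : x = s0
  · rw [c1, rr_self] at pxx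
    rw [c1] at hxy ⊢
    linarith
  by_cases c2 : y = s0
  · rw [c2, rr_self] at pyy
    rw [c2] at hxy ⊢
    linarith
  by_cases c3 : t' = s0
  · rw [c3, rr_self] at pu
    rw [c3] at py1 ⊢
    linarith
  by_cases c4 : s1 = s0
  · rw [c4, rr_self] at pw
    rw [c4] at py1 ⊢
    linarith
  obtain ⟨a1, -⟩ := rr_ne (n := n) c1
  obtain ⟨a2, -⟩ := rr_ne (n := n) c2
  obtain ⟨a3, e3⟩ := rr_ne (n := n) c3
  obtain ⟨a4, e4⟩ := rr_ne (n := n) c4
  have b1 := abs_lt_n hx h0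
  have b2 := abs_lt_n hy h0
  set Tx : ℝ := (x : ℝ) - s0 with hTx
  set Ty : ℝ := (y : ℝ) - s0 with hTy
  set u : ℝ := (t' : ℝ) - s0 with hu
  set w : ℝ := (s1 : ℝ) - s0 with hw
  have n1 : Tx ≠ 0 := by intro h0; rw [h0, abs_zero] at a1; linarith
  have n2 : Ty ≠ 0 := by intro h0; rw [h0, abs_zero] at a2; linarith
  have r1 : |((yy s0 s1 x t' : ℤ) : ℝ) - u * ((x : ℝ) - s1) / Tx| ≤ 1 / 2 := by
    rw [abs_sub_comm]
    exact abs_sub_round _
  have r2 : |((yy s0 s1 y t' : ℤ) : ℝ) - u * ((y : ℝ) - s1) / Ty| ≤ 1 / 2 := by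
    rw [abs_sub_comm]
    exact abs_sub_round _
  rw [← h] at r2
  have r3 : |u * w * (Tx - Ty) / (Tx * Ty)| ≤ 1 := by
    have e : u * w * (Tx - Ty) / (Tx * Ty) =
        (((yy s0 s1 x t' : ℤ) : ℝ) - u * ((y : ℝ) - s1) / Ty) -
        (((yy s0 s1 x t' : ℤ) : ℝ) - u * ((x : ℝ) - s1) / Tx) := by
      have e1 : (y : ℝ) - s1 = Ty - w := by rw [hTy, hw]; ring
      have e2 : (x : ℝ) - s1 = Tx - w := by rw [hTx, hw]; ring
      rw [e1, e2]
      field_simp
      ring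
    rw [e]
    have := abs_sub (((yy s0 s1 x t' : ℤ) : ℝ) - u * ((y : ℝ) - s1) / Ty)
      (((yy s0 s1 x t' : ℤ) : ℝ) - u * ((x : ℝ) - s1) / Tx)
    linarith
  have r4 : |u| * |w| * |Tx - Ty| ≤ (n : ℝ) * n := by
    rw [abs_div, abs_mul, abs_mul, abs_mul, div_le_one (by positivity)] at r3
    refine r3.trans ?_
    exact mul_le_mul b1 b2 (abs_nonneg _) (Nat.cast_nonneg n)
  have e5 : (x : ℝ) - y = Tx - Ty := by rw [hTx, hTy]; ring
  rw [e5]
  have r5 : |Tx - Ty| ≤ rr n t' s0 * rr n s1 s0 := by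
    rw [e3, e4, div_mul_div_comm, le_div_iff₀ (by positivity)]
    linarith
  linarith

/-! ### F9 -/

noncomputable def ra (n τ : ℕ) (z : ℤ) : ℝ :=
  max 1 ((n : ℝ) / max 1 |(((τ : ℕ) : ℤ) : ℝ) - (z : ℝ)|)

noncomputable def P9 (n v τ : ℕ) (z : ℤ) (s : ℕ) : ℝ :=
  (ra n τ z * rr n τ v * rr n τ s) ^ 2

noncomputable def R9 (n v τ : ℕ) (z : ℤ) (s : ℕ) : ℝ := 2 * P9 n v τ z s

lemma f9_ineq {n v τ x y : ℕ} {z : ℤ} (hv : v < n) (hτ : τ < n) (hx : x < n)
    (hy : y < n) (h : mm x v τ (z - x) = mm y v τ (z - y)) :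
    |(x : ℝ) - y| ≤ R9 n v τ z x + R9 n v τ z y := by
  have hn : (1 : ℝ) ≤ n := by exact_mod_cast (by omega : 1 ≤ n)
  have ha : 1 ≤ ra n τ z := le_max_left _ _
  obtain ⟨px, pu, pw, pxx, px1⟩ := prod_ge ha (rr_ge hτ hv) (rr_ge hτ hx)
  obtain ⟨py, -, -, pyy, py1⟩ := prod_ge ha (rr_ge hτ hv) (rr_ge hτ hy)
  have hxy := abs_lt_n hx hy
  have hPx : P9 n v τ z x = (ra n τ z * rr n τ v * rr n τ x) ^ 2 := rfl
  have hPy : P9 n v τ z y = (ra n τ z * rr n τ v * rr n τ y) ^ 2 := rfl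
  rw [← hPx] at px pu pw pxx px1
  rw [← hPy] at py pyy py1
  unfold R9
  by_cases c1 : x = τ
  · rw [c1, rr_self] at pxx
    rw [c1] at hxy ⊢
    linarith
  by_cases c2 : y = τ
  · rw [c2, rr_self] at pyy
    rw [c2] at hxy ⊢
    linarith
  by_cases c3 : v = τ
  · rw [c3, rr_self] at pw
    rw [c3] at py1 ⊢
    linarith
  by_cases c4 : (τ : ℤ) = z
  · have e : ra n τ z = n := by
      unfold ra
      rw [c4, sub_self, abs_zero, max_eq_left zero_le_one, div_one, max_eq_right hn]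
    rw [e] at pu
    linarith
  obtain ⟨a1, -⟩ := rr_ne (n := n) (Ne.symm c1)
  obtain ⟨a2, -⟩ := rr_ne (n := n) (Ne.symm c2)
  obtain ⟨a3, e3⟩ := rr_ne (n := n) (Ne.symm c3)
  have a4 : (1 : ℝ) ≤ |(((τ : ℕ) : ℤ) : ℝ) - (z : ℝ)| := by
    have h1 : (1 : ℤ) ≤ |(τ : ℤ) - z| := by
      apply Int.one_le_abs
      intro h'
      exact c4 (by linarith)
    exact_mod_cast h1
  have e4 : (n : ℝ) / |(((τ : ℕ) : ℤ) : ℝ) - (z : ℝ)| ≤ ra n τ z := by
    unfold ra
    rw [max_eq_right a4]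
    exact le_max_right _ _
  rw [Int.cast_natCast] at a4 e4
  have b1 := abs_lt_n hτ hx
  have b2 := abs_lt_n hτ hy
  set sx : ℝ := (τ : ℝ) - x with hsx
  set sy : ℝ := (τ : ℝ) - y with hsy
  set w : ℝ := (τ : ℝ) - v with hw
  set ζ : ℝ := (τ : ℝ) - z with hζ
  have n1 : sx ≠ 0 := by intro h0; rw [h0, abs_zero] at a1; linarith
  have n2 : sy ≠ 0 := by intro h0; rw [h0, abs_zero] at a2; linarith
  have r1 : |((mm x v τ (z - x) : ℤ) : ℝ) - ((z : ℝ) - x) * w / sx| ≤ 1 / 2 := by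
    rw [abs_sub_comm]
    have h1 := abs_sub_round ((((z - x : ℤ)) : ℝ) * ((τ : ℝ) - v) / ((τ : ℝ) - x))
    have h2 : mm x v τ (z - x) = round ((((z - x : ℤ)) : ℝ) * ((τ : ℝ) - v) / ((τ : ℝ) - x)) := rfl
    rw [← h2] at h1
    push_cast at h1
    exact h1
  have r2 : |((mm y v τ (z - y) : ℤ) : ℝ) - ((z : ℝ) - y) * w / sy| ≤ 1 / 2 := by
    rw [abs_sub_comm]
    have h1 := abs_sub_round ((((z - y : ℤ)) : ℝ) * ((τ : ℝ) - v) / ((τ : ℝ) - y))
    have h2 : mm y v τ (z - y) = round ((((z - y : ℤ)) : ℝ) * ((τ : ℝ) - v) / ((τ : ℝ) - y)) := rfl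
    rw [← h2] at h1
    push_cast at h1
    exact h1
  rw [← h] at r2
  obtain ⟨g, hg⟩ : ∃ g : ℤ, g = v + mm x v τ (z - x) - τ := ⟨_, rfl⟩
  have hg' : (g : ℝ) = ((mm x v τ (z - x) : ℤ) : ℝ) - w := by
    rw [hg, hw]
    push_cast
    ring
  -- `|g sx + ζ w| ≤ |sx| / 2`
  have k1 : |(g : ℝ) * sx + ζ * w| ≤ |sx| / 2 := by
    have e : (g : ℝ) * sx + ζ * w =
        (((mm x v τ (z - x) : ℤ) : ℝ) - ((z : ℝ) - x) * w / sx) * sx := by
      rw [hg']
      have : ((z : ℝ) - x) = sx - ζ := by rw [hsx, hζ]; ring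
      rw [this]
      field_simp
      ring
    rw [e, abs_mul]
    have := mul_le_mul_of_nonneg_right r1 (abs_nonneg sx)
    linarith
  have k2 : |(g : ℝ) * sy + ζ * w| ≤ |sy| / 2 := by
    have e : (g : ℝ) * sy + ζ * w =
        (((mm x v τ (z - x) : ℤ) : ℝ) - ((z : ℝ) - y) * w / sy) * sy := by
      rw [hg']
      have : ((z : ℝ) - y) = sy - ζ := by rw [hsy, hζ]; ring
      rw [this]
      field_simp
      ring
    rw [e, abs_mul]
    have := mul_le_mul_of_nonneg_right r2 (abs_nonneg sy)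
    linarith
  have k3 : |(g : ℝ)| * |sx - sy| ≤ n := by
    rw [← abs_mul]
    have e : (g : ℝ) * (sx - sy) = ((g : ℝ) * sx + ζ * w) - ((g : ℝ) * sy + ζ * w) := by ring
    rw [e]
    have := abs_sub ((g : ℝ) * sx + ζ * w) ((g : ℝ) * sy + ζ * w)
    linarith
  have k4 : |ζ * w| ≤ |(g : ℝ)| * |sx| + |sx| / 2 := by
    have e : ζ * w = ((g : ℝ) * sx + ζ * w) - (g : ℝ) * sx := by ring
    have h1 := abs_sub ((g : ℝ) * sx + ζ * w) ((g : ℝ) * sx)
    rw [← e, abs_mul (g : ℝ) sx] at h1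
    linarith
  have e5 : |(x : ℝ) - y| = |sx - sy| := by
    rw [hsx, hsy, abs_sub_comm]
    congr 1
    ring
  have hab : (n : ℝ) / |ζ| * (n / |w|) ≤ ra n τ z * rr n τ v := by
    rw [← e3]
    exact mul_le_mul_of_nonneg_right e4 (by have := rr_ge hτ hv; linarith)
  have hζw : 1 ≤ |ζ| * |w| := one_le_mul_of_one_le_of_one_le a4 a3
  have main : |sx - sy| * (|ζ| * |w|) ≤ 3 / 2 * ((n : ℝ) * n) := by
    rw [← abs_mul ζ w]
    by_cases hg0 : g = 0
    · rw [hg0, Int.cast_zero, abs_zero, zero_mul, zero_add] at k4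
      have h1 : |sx - sy| ≤ n := by rw [← e5]; exact hxy
      have h2 : |ζ * w| ≤ n := by linarith
      have h3 := mul_le_mul h1 h2 (abs_nonneg _) (Nat.cast_nonneg n)
      have h4 : (0 : ℝ) ≤ (n : ℝ) * n := by positivity
      linarith
    · have hg1 : (1 : ℝ) ≤ |(g : ℝ)| := by
        have : (1 : ℤ) ≤ |g| := Int.one_le_abs hg0
        exact_mod_cast this
      have h1 : |ζ * w| ≤ 3 / 2 * (|(g : ℝ)| * n) := by
        have h2 : |(g : ℝ)| * |sx| ≤ |(g : ℝ)| * n := mul_le_mul_of_nonneg_left b1 (abs_nonneg _)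
        have h3 : |sx| ≤ |(g : ℝ)| * n := by
          refine b1.trans ?_
          exact le_mul_of_one_le_left (Nat.cast_nonneg n) hg1
        linarith
      calc |sx - sy| * |ζ * w| ≤ |sx - sy| * (3 / 2 * (|(g : ℝ)| * n)) :=
            mul_le_mul_of_nonneg_left h1 (abs_nonneg _)
        _ = 3 / 2 * n * (|(g : ℝ)| * |sx - sy|) := by ring
        _ ≤ 3 / 2 * n * n := mul_le_mul_of_nonneg_left k3 (by positivity)
        _ = _ := by ring
  have fin : |sx - sy| ≤ 3 / 2 * ((n : ℝ) / |ζ| * (n / |w|)) := by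
    rw [div_mul_div_comm, ← mul_div_assoc, le_div_iff₀ (by linarith)]
    exact main
  rw [e5]
  linarith

/-! ### Absorbing the double logarithm -/

lemma loglog {C ε : ℝ} (hC : 0 ≤ C) (hε : 0 < ε) : ∃ C' : ℝ, 0 ≤ C' ∧ ∀ x : ℝ, 0 ≤ x →
    C * (1 + Real.log (1 + x)) ≤ ε * x + C' := by
  obtain ⟨a, ha⟩ : ∃ a : ℝ, a = ε / (C + 1) := ⟨_, rfl⟩
  have ha0 : 0 < a := by rw [ha]; positivity
  refine ⟨C * (1 + a + |Real.log a|), by positivity, fun x hx => ?_⟩
  have h1 : Real.log (1 + x) ≤ a * (1 + x) - Real.log a := by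
    have h2 := Real.log_le_sub_one_of_pos (show 0 < a * (1 + x) by positivity)
    rw [Real.log_mul ha0.ne' (by positivity)] at h2
    linarith
  have h2 : -Real.log a ≤ |Real.log a| := neg_le_abs _
  have h3 : C * a ≤ ε := by
    rw [ha, ← mul_div_assoc, div_le_iff₀ (by positivity)]
    nlinarith
  have h4 : C * (1 + Real.log (1 + x)) ≤ C * (1 + a + |Real.log a|) + (C * a) * x := by
    have h5 := mul_le_mul_of_nonneg_left (show 1 + Real.log (1 + x) ≤ 1 + a + |Real.log a| + a * x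
      by linarith) hC
    refine h5.trans (le_of_eq ?_)
    ring
  have h5 := mul_le_mul_of_nonneg_right h3 hx
  linarith

/-- a fact with one integer, from `S_BOX` -/
lemma box1 (hBOX : S_BOX) (c0 : ℝ) (hc0 : 0 ≤ c0) (ε : ℝ) (hε : 0 < ε) : ∃ C : ℝ, 0 ≤ C ∧
    ∀ (Θ : Type) [Fintype Θ] (α : Type) (q : Θ → ℝ) (f : Θ → α) (n : ℕ) (g : Θ → Fin n)
    (R : Θ → ℝ) (B : ℝ), 1 ≤ n → IsLaw q →
    (∀ x, q x ≠ 0 → 1 ≤ R x ∧ Real.log (R x) ≤ c0 * (1 + Real.log n)) →
    (∀ x y, q x ≠ 0 → q y ≠ 0 → f x = f y →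
      |(((g x : ℕ) : ℝ)) - ((g y : ℕ) : ℝ)| ≤ R x + R y) →
    EE q (fun z => Real.log (R z)) ≤ B →
    H q (fun x => (f x, g x)) ≤ H q f + (ε * Real.log n + C + B) := by
  obtain ⟨C, hC, hb⟩ := hBOX 1 c0 hc0
  obtain ⟨C', hC', hl⟩ := loglog hC hε
  refine ⟨C', hC', ?_⟩
  intro Θ _ α q f n g R B hn hq hR hd hB
  have h1 := hb Θ α q f (fun z _ => (((g z : ℕ)) : ℤ)) R n hn hq hR (by
    intro x y hx hy hf _
    have := hd x y hx hy hf
    push_cast
    exact this)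
  have h2 : H q (fun x => (f x, g x)) ≤
      H q (fun x => (f x, fun _ : Fin 1 => (((g x : ℕ)) : ℤ))) := by
    apply H_mono hq
    intro x y _ _ h
    simp only [Prod.mk.injEq] at h ⊢
    refine ⟨h.1, ?_⟩
    have h3 := congrFun h.2 0
    apply Fin.ext
    exact_mod_cast h3
  have h3 : EE q (fun z => Real.log (R z)) = ∑ x, q x * Real.log (R x) := rfl
  rw [h3] at hB
  have h4 := hl (Real.log n) (Real.log_nonneg (by exact_mod_cast hn))
  push_cast at h1
  linarith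

theorem t_f6 (hBOX : S_BOX) : S_F6 := by
  intro d ε hε
  obtain ⟨C, hC, hb⟩ := box1 hBOX 6 (by norm_num) ε hε
  refine ⟨C + 6, by positivity, ?_⟩
  intro n Ω _ A D hfam p S hp Θ iΘ q l1 l2 l3 s0 s1 t t' τ v hc
  have hq := hc.law
  have hn := hfam.pos
  have hnR : (1 : ℝ) ≤ n := by exact_mod_cast hn
  have hlR : ∀ z, Real.log (R6 n (s0 z) (s1 z) (t' z) (t z)) =
      2 * (psi n (t' z) (s0 z) + psi n (s1 z) (s0 z) + psi n (t z) (s0 z)) := by
    intro z
    have h1 := rr_ge (t' z).2 (s0 z).2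
    have h2 := rr_ge (s1 z).2 (s0 z).2
    have h3 := rr_ge (t z).2 (s0 z).2
    unfold R6
    rw [Real.log_pow, Real.log_mul (by positivity) (by positivity),
      Real.log_mul (by positivity) (by positivity)]
    simp only [psi_eq]
    push_cast
    ring
  have hS0 : 0 ≤ S := by
    refine le_trans ?_ (hc.c1.trans hc.sep_le)
    exact Finset.sum_nonneg fun z _ => mul_nonneg (hq.nonneg z) (psi_nonneg (s0 z).2 (s1 z).2)
  have h1 := hb Θ _ q (fun z => (s0 z, s1 z, t' z, YY s0 s1 t t' z)) n t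
    (fun z => R6 n (s0 z) (s1 z) (t' z) (t z)) (6 * S) hn hq (by
      intro z _
      refine ⟨(prod_ge (rr_ge (t' z).2 (s0 z).2) (rr_ge (s1 z).2 (s0 z).2)
        (rr_ge (t z).2 (s0 z).2)).2.2.2.2, ?_⟩
      rw [hlR]
      have a1 : ∀ i j : Fin n, psi n i j ≤ Real.log n := by
        intro i j
        rw [psi_eq]
        exact Real.log_le_log (by have := rr_ge i.2 j.2; linarith) (rr_le _ _ _)
      have := a1 (t' z) (s0 z)
      have := a1 (s1 z) (s0 z)
      have := a1 (t z) (s0 z)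
      linarith) (by
      intro x y _ _ hf
      simp only [Prod.mk.injEq] at hf
      obtain ⟨f1, f2, f3, f4⟩ := hf
      have f4' : yy (s0 x) (s1 x) (t x) (t' x) = yy (s0 y) (s1 y) (t y) (t' y) := f4
      rw [← f1, ← f2, ← f3] at f4'
      have h := f6_ineq (s0 x).2 (s1 x).2 (t' x).2 (t x).2 (t y).2 f4'
      rw [← f1, ← f2, ← f3]
      exact h) (by
      have e : EE q (fun z => Real.log (R6 n (s0 z) (s1 z) (t' z) (t z))) =
          2 * (EE q (fun z => psi n (t' z) (s0 z)) + EE q (fun z => psi n (s0 z) (s1 z)) +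
            EE q (fun z => psi n (t z) (s0 z))) := by
        rw [← EE_add, ← EE_add, ← EE_mul]
        unfold EE
        refine Finset.sum_congr rfl fun z _ => ?_
        beta_reduce
        rw [hlR z, psi_symm n (s0 z) (s1 z)]
      rw [e]
      have b1 : EE q (fun z => psi n (t' z) (s0 z)) ≤ S := hc.c4.trans hc.sep_le
      have b2 : EE q (fun z => psi n (s0 z) (s1 z)) ≤ S := hc.c1.trans hc.sep_le
      have b3 : EE q (fun z => psi n (t z) (s0 z)) ≤ S := hc.c2.trans hc.sep_le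
      linarith)
  unfold F6
  refine h1.trans ?_
  have : 0 ≤ C * S := mul_nonneg hC hS0
  have e : (C + 6) * (1 + S) = C + C * S + 6 + 6 * S := by ring
  rw [e]
  linarith

theorem t_f9 (hBOX : S_BOX) : S_F9 := by
  intro d ε hε
  obtain ⟨C, hC, hb⟩ := box1 hBOX 7 (by norm_num) ε hε
  refine ⟨C + 7, by positivity, ?_⟩
  intro n Ω _ A D hfam p S hp Θ iΘ q l1 l2 l3 s0 s1 t t' τ v hc
  have hq := hc.law
  have hn := hfam.pos
  have hnR : (1 : ℝ) ≤ n := by exact_mod_cast hn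
  obtain ⟨Z, hZ⟩ : ∃ Z : Θ → ℤ, Z = fun z => ((s1 z : ℕ) : ℤ) + YY s0 s1 t t' z := ⟨_, rfl⟩
  have hra : ∀ z, 1 ≤ ra n (τ z) (Z z) := fun z => le_max_left _ _
  have hlR : ∀ z, Real.log (R9 n (v z) (τ z) (Z z) (s1 z)) =
      Real.log 2 + 2 * (pz n ((τ z : ℕ) : ℤ) (Z z) + psi n (τ z) (v z) + psi n (τ z) (s1 z)) := by
    intro z
    have h1 := hra z
    have h2 := rr_ge (τ z).2 (v z).2
    have h3 := rr_ge (τ z).2 (s1 z).2
    unfold R9 P9
    rw [Real.log_mul (by norm_num) (by positivity), Real.log_pow,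
      Real.log_mul (by positivity) (by positivity),
      Real.log_mul (by positivity) (by positivity)]
    have e : pz n ((τ z : ℕ) : ℤ) (Z z) = Real.log (ra n (τ z) (Z z)) := rfl
    rw [e]
    simp only [psi_eq]
    push_cast
    ring
  have hS0 : 0 ≤ S := by
    refine le_trans ?_ (hc.c1.trans hc.sep_le)
    exact Finset.sum_nonneg fun z _ => mul_nonneg (hq.nonneg z) (psi_nonneg (s0 z).2 (s1 z).2)
  have hl2 : Real.log 2 ≤ 1 := by
    have := Real.log_two_lt_d9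
    linarith
  have h1 := hb Θ _ q (fun z => (v z, τ z, (WW A D l2 l3 s0 s1 t t' τ v z).1,
      (XX A D l1 l3 s0 s1 t t' z).1)) n s1
    (fun z => R9 n (v z) (τ z) (Z z) (s1 z)) (1 + 6 * S) hn hq (by
      intro z _
      have h5 := (prod_ge (hra z) (rr_ge (τ z).2 (v z).2)
        (rr_ge (τ z).2 (s1 z).2)).2.2.2.2
      refine ⟨?_, ?_⟩
      · show 1 ≤ R9 n (v z) (τ z) (Z z) (s1 z)
        unfold R9 P9
        linarith
      rw [hlR]
      have a1 : ∀ i j : Fin n, psi n i j ≤ Real.log n := by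
        intro i j
        rw [psi_eq]
        exact Real.log_le_log (by have := rr_ge i.2 j.2; linarith) (rr_le _ _ _)
      have a2 : pz n ((τ z : ℕ) : ℤ) (Z z) ≤ Real.log n := by
        unfold pz
        refine Real.log_le_log (lt_of_lt_of_le one_pos (le_max_left _ _)) (max_le hnR ?_)
        exact div_le_self (Nat.cast_nonneg n) (le_max_left _ _)
      have := a1 (τ z) (v z)
      have := a1 (τ z) (s1 z)
      have := Real.log_nonneg hnR
      linarith) (by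
      intro x y _ _ hf
      simp only [Prod.mk.injEq] at hf
      obtain ⟨f1, f2, f3, f4⟩ := hf
      have f4' : Z x = Z y := by
        rw [hZ]
        exact f4
      have f3' : ((v x : ℕ) : ℤ) + mm (s1 x) (v x) (τ x) (YY s0 s1 t t' x) =
          ((v y : ℕ) : ℤ) + mm (s1 y) (v y) (τ y) (YY s0 s1 t t' y) := f3
      have ex : YY s0 s1 t t' x = Z x - ((s1 x : ℕ) : ℤ) := by rw [hZ]; ring
      have ey : YY s0 s1 t t' y = Z y - ((s1 y : ℕ) : ℤ) := by rw [hZ]; ring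
      rw [ex, ey, ← f4', ← f1, ← f2] at f3'
      have f5 := add_left_cancel f3'
      have h := f9_ineq (v x).2 (τ x).2 (s1 x).2 (s1 y).2 f5
      rw [← f1, ← f2, ← f4']
      exact h) (by
      have e : EE q (fun z => Real.log (R9 n (v z) (τ z) (Z z) (s1 z))) =
          Real.log 2 + 2 * (EE q (fun z => pz n ((τ z : ℕ) : ℤ) (Z z)) +
            EE q (fun z => psi n (τ z) (v z)) + EE q (fun z => psi n (τ z) (s1 z))) := by
        rw [← EE_add, ← EE_add, ← EE_mul, ← EE_const hq (Real.log 2), ← EE_add]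
        unfold EE
        refine Finset.sum_congr rfl fun z _ => ?_
        beta_reduce
        rw [hlR z]
      rw [e]
      have b1 : EE q (fun z => pz n ((τ z : ℕ) : ℤ) (Z z)) ≤ S := by
        have := hc.τx fun a b c d => ((b : ℕ) : ℤ) + yy a b c d
        rw [hZ]
        exact this
      have b2 : EE q (fun z => psi n (τ z) (v z)) ≤ S := hc.c6.trans hc.sep_le
      have b3 : EE q (fun z => psi n (τ z) (s1 z)) ≤ S := hc.c5.trans hc.sep_le
      linarith)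
  unfold F9
  refine h1.trans ?_
  have : 0 ≤ C * S := mul_nonneg hC hS0
  have e : (C + 7) * (1 + S) = C + C * S + 7 + 7 * S := by ring
  rw [e]
  linarith

end Pool.Agent.Y290.HK
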